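import Pool.Agent.H56.CP.Crit
import Pool.Agent.H42.PR.Abs

/-!
The criterion for a set `S`, and the passage to integral sign functions.
-/

namespace Pool.Agent.H56.CP

section

variable {X : Type} [Fintype X] {c : X → X} {G : Subgroup (Equiv.Perm X)} {e : X → ℚ}

theorem pairGenOn_of_indepOn (hs : Setup c G e) (S : Set X) (hSc : ∀ x ∈ S, c x ∈ S) (H : IndepOn c G e S)
    (m : X → ℕ) (hmS : ∀ x, m x ≠ 0 → x ∈ S) (hm : ∀ g ∈ G, ∑ x, (m x : ℚ) * e (g x) = 0) (x : X) (hx : 0 < m x) :
    ∃ x', (∀ g ∈ G, e (g x') = - e (g x)) ∧ 0 < m x' := by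
  classical
  have hSc' : ∀ x, c x ∈ S ↔ x ∈ S := fun x => ⟨fun h => by rw [← hs.invol x]; exact hSc _ h, hSc x⟩
  set R : X → X → Prop := fun x y => Rel G e x y ∧ (x ∈ S ↔ y ∈ S) with hR
  have hRr : ∀ x, R x x := fun x => ⟨Rel.refl x, Iff.rfl⟩
  have hRs : ∀ x y, R x y → R y x := fun x y h => ⟨h.1.symm, h.2.symm⟩
  have hRt : ∀ x y z, R x y → R y z → R x z := fun x y z h h' => ⟨h.1.trans h'.1, h.2.trans h'.2⟩
  have hRc : ∀ x y, R (c x) (c y) ↔ R x y := by
    intro x y
    simp only [hR, Rel.conj_iff hs, hSc']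
  set a : X → ℚ := fun x => (m x : ℚ) - m (c x) with ha
  have hperp : Perp G e a := perp_of_content hs m hm
  have hodd : ∀ x, a (c x) = - a x := by
    intro x
    simp only [ha, hs.invol]
    ring
  have haS : ∀ x, x ∉ S → a x = 0 := by
    intro x hx
    have h1 : m x = 0 := by
      by_contra h
      exact hx (hmS x h)
    have h2 : m (c x) = 0 := by
      by_contra h
      exact hx ((hSc' x).1 (hmS _ h))
    simp only [ha, h1, h2]
    norm_num
  set n : X → ℚ := fun x => ∑ z, if R x z then (1 : ℚ) else 0 with hn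
  have hnpos : ∀ x, 0 < n x := by
    intro x
    apply Finset.sum_pos'
    · intro z _
      split_ifs <;> norm_num
    · exact ⟨x, Finset.mem_univ _, by rw [if_pos (hRr x)]; norm_num⟩
  have hRiff : ∀ x y, R x y → ∀ z, R x z ↔ R y z := fun x y h z =>
    ⟨fun h' => hRt _ _ _ (hRs _ _ h) h', fun h' => hRt _ _ _ h h'⟩
  have hnrel : ∀ x y, R x y → n x = n y := by
    intro x y h
    simp only [hn, hRiff x y h]
  have hnc : ∀ x, n (c x) = n x := by
    intro x
    simp only [hn]
    rw [← sum_conj hs]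
    refine Finset.sum_congr rfl fun z _ => ?_
    simp only [hRc]
  set f : X → ℚ := fun x => (∑ y, if R x y then a y else 0) / n x with hf
  have hf0 : f = 0 := by
    apply H
    · intro x
      simp only [hf]
      rw [hnc, ← sum_conj hs, ← neg_div, ← Finset.sum_neg_distrib]
      congr 1
      refine Finset.sum_congr rfl fun z _ => ?_
      simp only [hRc, hodd]
      split_ifs
      · rfl
      · rw [neg_zero]
    · intro x hx
      by_contra hxS
      apply hx
      simp only [hf]
      rw [Finset.sum_eq_zero, zero_div]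
      intro y _
      split_ifs with h
      · exact haS y (fun h' => hxS (h.2.2 h'))
      · rfl
    · intro x hx y hy h
      have hxy : R x y := ⟨h, ⟨fun _ => hy, fun _ => hx⟩⟩
      simp only [hf]
      rw [hnrel x y hxy]
      congr 1
      refine Finset.sum_congr rfl fun z _ => ?_
      simp only [hRiff x y hxy]
    · intro g hg
      have h1 : ∀ x, f x * e (g x) = ∑ y, (if R x y then a y * e (g y) / n y else 0) := by
        intro x
        simp only [hf]
        rw [div_mul_eq_mul_div, Finset.sum_mul, Finset.sum_div]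
        refine Finset.sum_congr rfl fun y _ => ?_
        split_ifs with h
        · rw [h.1 g hg, hnrel x y h]
        · rw [zero_mul, zero_div]
      simp only [h1]
      rw [Finset.sum_comm]
      have h2 : ∀ y, ∑ x, (if R x y then a y * e (g y) / n y else 0) = a y * e (g y) := by
        intro y
        have h3 : ∀ x, (if R x y then a y * e (g y) / n y else 0) =
            (a y * e (g y) / n y) * (if R y x then (1 : ℚ) else 0) := by
          intro x
          by_cases h : R x y
          · rw [if_pos h, if_pos (hRs _ _ h), mul_one]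
          · rw [if_neg h, if_neg (fun h' => h (hRs _ _ h')), mul_zero]
        simp only [h3]
        rw [← Finset.mul_sum]
        exact div_mul_cancel₀ _ (hnpos y).ne'
      simp only [h2]
      exact hperp g hg
  have h0 := congrFun hf0 (c x)
  rw [Pi.zero_apply] at h0
  simp only [hf] at h0
  rw [div_eq_zero_iff, or_iff_left (hnpos _).ne'] at h0
  have h1 : ∑ y, (if R (c x) y then (m y : ℚ) else 0) = ∑ y, (if R (c x) y then (m (c y) : ℚ) else 0) := by
    have h2 : ∀ y, (if R (c x) y then a y else 0) =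
        (if R (c x) y then (m y : ℚ) else 0) - (if R (c x) y then (m (c y) : ℚ) else 0) := by
      intro y
      split_ifs
      · rfl
      · rw [sub_zero]
    simp only [h2, Finset.sum_sub_distrib] at h0
    linarith
  have h2 : 0 < ∑ y, (if R (c x) y then (m (c y) : ℚ) else 0) := by
    apply Finset.sum_pos'
    · intro y _
      split_ifs
      · positivity
      · exact le_rfl
    · refine ⟨c x, Finset.mem_univ _, ?_⟩
      rw [if_pos (hRr _), hs.invol]
      exact_mod_cast hx
  rw [← h1] at h2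
  obtain ⟨x', -, hx'⟩ := Finset.exists_ne_zero_of_sum_ne_zero h2.ne'
  have hrel : R (c x) x' := by
    by_contra h
    rw [if_neg h] at hx'
    exact hx' rfl
  rw [if_pos hrel] at hx'
  refine ⟨x', fun g hg => ?_, ?_⟩
  · rw [← hrel.1 g hg, hs.comm g hg, hs.odd]
  · rw [Nat.pos_iff_ne_zero]
    exact_mod_cast hx'

end

section

variable {X : Type} [Fintype X] {G : Subgroup (Equiv.Perm X)} {ρ : Equiv.Perm X} {e : X → ℤ}

theorem setup_of_int (hcomm : ∀ g ∈ G, ∀ x, g (ρ x) = ρ (g x)) (hinv : ∀ x, ρ (ρ x) = x)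
    (he : ∀ x, e x = 1 ∨ e x = -1) (heρ : ∀ x, e (ρ x) = - e x) :
    Setup (ρ : X → X) G (fun x => ((e x : ℤ) : ℚ)) where
  invol := hinv
  comm := hcomm
  pm x := by
    rcases he x with h | h
    · exact Or.inl (by rw [h]; norm_num)
    · exact Or.inr (by rw [h]; norm_num)
  odd x := by
    rw [heρ]
    push_cast
    rfl

theorem goodOn_of_indepOn (hcomm : ∀ g ∈ G, ∀ x, g (ρ x) = ρ (g x)) (hinv : ∀ x, ρ (ρ x) = x)
    (he : ∀ x, e x = 1 ∨ e x = -1) (heρ : ∀ x, e (ρ x) = - e x) (S : Set X) (hSρ : ∀ x ∈ S, ρ x ∈ S)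
    (H : IndepOn (ρ : X → X) G (fun x => ((e x : ℤ) : ℚ)) S) : Pool.Agent.H42.PR.GoodOn G e S := by
  intro m hmS hm x hx
  obtain ⟨x', h1, h2⟩ := pairGenOn_of_indepOn (setup_of_int hcomm hinv he heρ) S hSρ H m hmS (fun g hg => by
    have h3 := hm g hg
    have h4 : ((∑ x, (m x : ℤ) * e (g x) : ℤ) : ℚ) = 0 := by rw [h3]; norm_num
    push_cast at h4
    exact h4) x hx
  refine ⟨x', fun g hg => ?_, h2⟩
  have h3 := h1 g hg
  have h4 : ((e (g x) + e (g x') : ℤ) : ℚ) = 0 := by
    push_cast
    rw [h3]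
    ring
  exact_mod_cast h4

end

end Pool.Agent.H56.CP
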