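import Pool.Agent.H56.CP.Prime
import Pool.Agent.H56.CP.CritS

/-!
Every balanced content on a class with `2b` elements is a sum of opposite pairs if `b = 1`, or `b` is a prime and `G` is
transitive on the class, or `b` is odd and `G` is 2-homogeneous on the pairs of the class.
-/

namespace Pool.Agent.H56.CP

theorem goodOn_class {X : Type} [Fintype X] {G : Subgroup (Equiv.Perm X)} {ρ : Equiv.Perm X} {e : X → ℤ}
    (hcomm : ∀ g ∈ G, ∀ x, g (ρ x) = ρ (g x)) (hinv : ∀ x, ρ (ρ x) = x) (he : ∀ x, e x = 1 ∨ e x = -1)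
    (heρ : ∀ x, e (ρ x) = - e x) (S : Set X) (hSρ : ∀ x ∈ S, ρ x ∈ S)
    (hB : ∀ g ∈ G, ∀ x ∈ S, g x ∈ S → ∀ y, g y ∈ S ↔ y ∈ S) (b : ℕ) (hcard : Nat.card S = 2 * b)
    (h : b = 1 ∨ (b.Prime ∧ ∀ x ∈ S, ∀ y ∈ S, ∃ g ∈ G, g x = y) ∨ (Odd b ∧ TwoHom (ρ : X → X) G S)) :
    Pool.Agent.H42.PR.GoodOn G e S :=
  goodOn_of_indepOn hcomm hinv he heρ S hSρ
    (indepOn_class (setup_of_int hcomm hinv he heρ) hSρ hB b hcard h)

end Pool.Agent.H56.CP
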