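import Pool.Agent.H56.CP.Defs

/-!
Every balanced content is a sum of balanced pairs if and only if the sign functions are independent up to repetition and
sign.
-/

namespace Pool.Agent.H56.CP

section

variable {X : Type} [Fintype X] {c : X → X} {G : Subgroup (Equiv.Perm X)} {e : X → ℚ}

open Classical in
theorem classCard_rel {x y : X} (h : Rel G e x y) :
    (∑ z, if Rel G e x z then (1 : ℚ) else 0) = ∑ z, if Rel G e y z then (1 : ℚ) else 0 := by
  refine Finset.sum_congr rfl fun z _ => ?_
  have h1 : Rel G e x z ↔ Rel G e y z := ⟨fun h' => h.symm.trans h', fun h' => h.trans h'⟩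
  simp only [h1]

open Classical in
theorem classCard_pos (x : X) : 0 < ∑ z, if Rel G e x z then (1 : ℚ) else 0 := by
  apply Finset.sum_pos'
  · intro z _
    split_ifs <;> norm_num
  · exact ⟨x, Finset.mem_univ _, by rw [if_pos (Rel.refl x)]; norm_num⟩

theorem sum_conj (hs : Setup c G e) (F : X → ℚ) : ∑ x, F (c x) = ∑ x, F x :=
  Equiv.sum_comp hs.perm F

theorem perp_of_content (hs : Setup c G e) (m : X → ℕ) (hm : ∀ g ∈ G, ∑ x, (m x : ℚ) * e (g x) = 0) :
    Perp G e (fun x => (m x : ℚ) - m (c x)) := by
  intro g hg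
  have h1 : ∑ x, (m (c x) : ℚ) * e (g x) = 0 := by
    rw [← sum_conj hs]
    simp only [hs.invol, hs.comm g hg, hs.odd, mul_neg, Finset.sum_neg_distrib]
    rw [hm g hg, neg_zero]
  simp only [sub_mul, Finset.sum_sub_distrib]
  rw [hm g hg, h1, sub_zero]

theorem pairGen_of_indep (hs : Setup c G e) (H : IndepOn c G e Set.univ) : PairGen G e := by
  classical
  intro m hm x hx
  set a : X → ℚ := fun x => (m x : ℚ) - m (c x) with ha
  have hperp : Perp G e a := perp_of_content hs m hm
  have hodd : ∀ x, a (c x) = - a x := by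
    intro x
    simp only [ha, hs.invol]
    ring
  set n : X → ℚ := fun x => ∑ z, if Rel G e x z then (1 : ℚ) else 0 with hn
  have hnpos : ∀ x, 0 < n x := fun x => classCard_pos x
  have hnrel : ∀ x y, Rel G e x y → n x = n y := fun x y h => classCard_rel h
  have hnc : ∀ x, n (c x) = n x := by
    intro x
    simp only [hn]
    rw [← sum_conj hs]
    refine Finset.sum_congr rfl fun z _ => ?_
    simp only [Rel.conj_iff hs]
  set f : X → ℚ := fun x => (∑ y, if Rel G e x y then a y else 0) / n x with hf
  have hf0 : f = 0 := by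
    apply H
    · intro x
      simp only [hf]
      rw [hnc, ← sum_conj hs, ← neg_div, ← Finset.sum_neg_distrib]
      congr 1
      refine Finset.sum_congr rfl fun z _ => ?_
      simp only [Rel.conj_iff hs, hodd]
      split_ifs
      · rfl
      · rw [neg_zero]
    · intro x _
      exact Set.mem_univ x
    · intro x _ y _ h
      simp only [hf]
      rw [hnrel x y h]
      congr 1
      refine Finset.sum_congr rfl fun z _ => ?_
      have h1 : Rel G e x z ↔ Rel G e y z := ⟨fun h' => h.symm.trans h', fun h' => h.trans h'⟩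
      simp only [h1]
    · intro g hg
      have h1 : ∀ x, f x * e (g x) = ∑ y, (if Rel G e x y then a y * e (g y) / n y else 0) := by
        intro x
        simp only [hf]
        rw [div_mul_eq_mul_div, Finset.sum_mul, Finset.sum_div]
        refine Finset.sum_congr rfl fun y _ => ?_
        split_ifs with h
        · rw [h g hg, hnrel x y h]
        · rw [zero_mul, zero_div]
      simp only [h1]
      rw [Finset.sum_comm]
      have h2 : ∀ y, ∑ x, (if Rel G e x y then a y * e (g y) / n y else 0) = a y * e (g y) := by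
        intro y
        have h3 : ∀ x, (if Rel G e x y then a y * e (g y) / n y else 0) =
            (a y * e (g y) / n y) * (if Rel G e y x then (1 : ℚ) else 0) := by
          intro x
          by_cases h : Rel G e x y
          · rw [if_pos h, if_pos h.symm, mul_one]
          · rw [if_neg h, if_neg (fun h' => h h'.symm), mul_zero]
        simp only [h3]
        rw [← Finset.mul_sum]
        exact div_mul_cancel₀ _ (hnpos y).ne'
      simp only [h2]
      exact hperp g hg
  have h0 := congrFun hf0 (c x)
  rw [Pi.zero_apply] at h0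
  simp only [hf] at h0
  rw [div_eq_zero_iff, or_iff_left (hnpos _).ne'] at h0
  have h1 : ∑ y, (if Rel G e (c x) y then (m y : ℚ) else 0) = ∑ y, (if Rel G e (c x) y then (m (c y) : ℚ) else 0) := by
    have h2 : ∀ y, (if Rel G e (c x) y then a y else 0) =
        (if Rel G e (c x) y then (m y : ℚ) else 0) - (if Rel G e (c x) y then (m (c y) : ℚ) else 0) := by
      intro y
      split_ifs
      · rfl
      · rw [sub_zero]
    simp only [h2, Finset.sum_sub_distrib] at h0
    linarith
  have h2 : 0 < ∑ y, (if Rel G e (c x) y then (m (c y) : ℚ) else 0) := by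
    apply Finset.sum_pos'
    · intro y _
      split_ifs
      · positivity
      · exact le_rfl
    · refine ⟨c x, Finset.mem_univ _, ?_⟩
      rw [if_pos (Rel.refl _), hs.invol]
      exact_mod_cast hx
  rw [← h1] at h2
  obtain ⟨x', -, hx'⟩ := Finset.exists_ne_zero_of_sum_ne_zero h2.ne'
  have hrel : Rel G e (c x) x' := by
    by_contra h
    rw [if_neg h] at hx'
    exact hx' rfl
  rw [if_pos hrel] at hx'
  refine ⟨x', fun g hg => ?_, ?_⟩
  · rw [← hrel g hg, hs.comm g hg, hs.odd]
  · rw [Nat.pos_iff_ne_zero]
    exact_mod_cast hx'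

theorem indep_of_pairGen (hs : Setup c G e) (H : PairGen G e) : IndepOn c G e Set.univ := by
  classical
  intro f hodd _ hconst hperp
  by_contra hne
  -- common denominator
  set N : ℕ := ∏ x, (f x).den with hN
  have hNpos : 0 < N := Finset.prod_pos fun x _ => (f x).den_pos
  have hint : ∀ x, ∃ z : ℤ, (N : ℚ) * f x = z := by
    intro x
    obtain ⟨k, hk⟩ : (f x).den ∣ N := Finset.dvd_prod_of_mem _ (Finset.mem_univ x)
    refine ⟨(k : ℤ) * (f x).num, ?_⟩
    rw [hk]
    push_cast
    have h1 : ((f x).den : ℚ) * f x = (f x).num := Rat.den_mul_eq_num (f x)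
    linear_combination (k : ℚ) * h1
  choose F hF using hint
  have hNQ : (0 : ℚ) < N := by exact_mod_cast hNpos
  have hFodd : ∀ x, F (c x) = - F x := by
    intro x
    have h1 : (F (c x) : ℚ) = ((- F x : ℤ) : ℚ) := by
      push_cast
      rw [← hF, ← hF, hodd]
      ring
    exact_mod_cast h1
  set m : X → ℕ := fun x => (F x).toNat with hm
  have hmF : ∀ x, (m x : ℤ) - m (c x) = F x := by
    intro x
    simp only [hm]
    rw [hFodd]
    omega
  have hsum : ∀ g ∈ G, ∑ x, (m x : ℚ) * e (g x) = 0 := by
    intro g hg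
    have h1 : ∑ x, (m (c x) : ℚ) * e (g x) = - ∑ x, (m x : ℚ) * e (g x) := by
      rw [← sum_conj hs]
      simp only [hs.invol, hs.comm g hg, hs.odd, mul_neg, Finset.sum_neg_distrib]
    have h2 : ∑ x, ((m x : ℚ) - m (c x)) * e (g x) = 0 := by
      have h3 : ∀ x, ((m x : ℚ) - m (c x)) * e (g x) = N * (f x * e (g x)) := by
        intro x
        have h4 : (m x : ℚ) - m (c x) = N * f x := by
          rw [hF, ← hmF x]
          push_cast
          ring
        rw [h4]
        ring
      simp only [h3]
      rw [← Finset.mul_sum, hperp g hg, mul_zero]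
    simp only [sub_mul, Finset.sum_sub_distrib] at h2
    rw [h1] at h2
    linarith
  obtain ⟨x₀, hx₀⟩ : ∃ x, f x ≠ 0 := by
    by_contra hcon
    push Not at hcon
    exact hne (funext hcon)
  obtain ⟨x, hx⟩ : ∃ x, 0 < f x := by
    rcases lt_or_gt_of_ne hx₀ with h | h
    · refine ⟨c x₀, ?_⟩
      rw [hodd]
      linarith
    · exact ⟨x₀, h⟩
  have hmpos : ∀ y, 0 < m y → 0 < f y := by
    intro y hy
    have h1 : 0 < F y := by
      simp only [hm] at hy
      omega
    have h2 : (0 : ℚ) < N * f y := by
      rw [hF]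
      exact_mod_cast h1
    exact (mul_pos_iff_of_pos_left hNQ).1 h2
  have hmx : 0 < m x := by
    have h1 : (0 : ℚ) < F x := by
      rw [← hF]
      positivity
    have h2 : 0 < F x := by exact_mod_cast h1
    simp only [hm]
    omega
  obtain ⟨x', hx', hm'⟩ := H m hsum x hmx
  have hrel : Rel G e x' (c x) := by
    intro g hg
    rw [hx' g hg, hs.comm g hg, hs.odd]
  have h1 := hconst x' (Set.mem_univ _) (c x) (Set.mem_univ _) hrel
  have h2 := hmpos x' hm'
  rw [h1, hodd] at h2
  linarith

/-- **The criterion.** -/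
theorem pairGen_iff (hs : Setup c G e) : PairGen G e ↔ IndepOn c G e Set.univ :=
  ⟨indep_of_pairGen hs, pairGen_of_indep hs⟩

end

end Pool.Agent.H56.CP
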