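import Mathlib

/-!
# Sign functions on a finite set with a group of permutations and an involution

`X` is a finite set with a fixed point free involution `c`, `G` a group of permutations commuting with `c`, and
`e : X → ℚ` takes the values `1` and `-1` and is odd.  In the application `X` is the disjoint union of the sets of
embeddings of the CM fields `K i`, `c` is complex conjugation, `G` is the image of the group of automorphisms of `ℂ`,
and `e` is the sign function of the CM types.
-/

namespace Pool.Agent.H56.CP

section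

variable {X : Type} [Fintype X]

/-- The standing hypotheses. -/
structure Setup (c : X → X) (G : Subgroup (Equiv.Perm X)) (e : X → ℚ) : Prop where
  invol : ∀ x, c (c x) = x
  comm : ∀ g ∈ G, ∀ x, g (c x) = c (g x)
  pm : ∀ x, e x = 1 ∨ e x = -1
  odd : ∀ x, e (c x) = - e x

/-- `f` is odd. -/
def OddF (c : X → X) (f : X → ℚ) : Prop := ∀ x, f (c x) = - f x

/-- `f` is orthogonal to all translates of `e`. -/
def Perp (G : Subgroup (Equiv.Perm X)) (e f : X → ℚ) : Prop := ∀ g ∈ G, ∑ x, f x * e (g x) = 0

/-- `x` and `y` have the same signs. -/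
def Rel (G : Subgroup (Equiv.Perm X)) (e : X → ℚ) (x y : X) : Prop := ∀ g ∈ G, e (g x) = e (g y)

/-- Some permutation of `G` fixes `y` and maps `x` to `c x`. -/
def Orth (c : X → X) (G : Subgroup (Equiv.Perm X)) (x y : X) : Prop := ∃ g ∈ G, g x = c x ∧ g y = y

/-- **Independence** on a set `S`: an odd function that vanishes outside `S`, is constant on the classes of `Rel` and
is orthogonal to all translates of `e` is zero. -/
def IndepOn (c : X → X) (G : Subgroup (Equiv.Perm X)) (e : X → ℚ) (S : Set X) : Prop :=
  ∀ f : X → ℚ, OddF c f → (∀ x, f x ≠ 0 → x ∈ S) → (∀ x ∈ S, ∀ y ∈ S, Rel G e x y → f x = f y) →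
    Perp G e f → f = 0

/-- Every balanced content is a sum of balanced pairs. -/
def PairGen (G : Subgroup (Equiv.Perm X)) (e : X → ℚ) : Prop :=
  ∀ m : X → ℕ, (∀ g ∈ G, ∑ x, (m x : ℚ) * e (g x) = 0) →
    ∀ x, 0 < m x → ∃ x', (∀ g ∈ G, e (g x') = - e (g x)) ∧ 0 < m x'

end

section

variable {X : Type} [Fintype X] {c : X → X} {G : Subgroup (Equiv.Perm X)} {e : X → ℚ}

theorem Setup.ne (h : Setup c G e) (x : X) : c x ≠ x := by
  intro h1
  have h2 := h.odd x
  rw [h1] at h2
  rcases h.pm x with h3 | h3 <;> rw [h3] at h2 <;> norm_num at h2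

theorem Setup.sq (h : Setup c G e) (x : X) : e x * e x = 1 := by
  rcases h.pm x with h3 | h3 <;> rw [h3] <;> norm_num

theorem Setup.inj (h : Setup c G e) : Function.Injective c := by
  intro x y hxy
  rw [← h.invol x, hxy, h.invol]

/-- The involution as a permutation. -/
def Setup.perm (h : Setup c G e) : Equiv.Perm X := ⟨c, c, h.invol, h.invol⟩

theorem Setup.perm_apply (h : Setup c G e) (x : X) : h.perm x = c x := rfl

theorem Rel.refl (x : X) : Rel G e x x := fun _ _ => rfl

theorem Rel.symm {x y : X} (h : Rel G e x y) : Rel G e y x := fun g hg => (h g hg).symm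

theorem Rel.trans {x y z : X} (h : Rel G e x y) (h' : Rel G e y z) : Rel G e x z :=
  fun g hg => (h g hg).trans (h' g hg)

theorem Rel.conj (hs : Setup c G e) {x y : X} (h : Rel G e x y) : Rel G e (c x) (c y) := by
  intro g hg
  rw [hs.comm g hg, hs.comm g hg, hs.odd, hs.odd, h g hg]

theorem Rel.conj_iff (hs : Setup c G e) {x y : X} : Rel G e (c x) (c y) ↔ Rel G e x y := by
  constructor
  · intro h
    have h1 := h.conj hs
    rwa [hs.invol, hs.invol] at h1
  · exact fun h => h.conj hs

theorem Rel.smul {x y : X} (h : Rel G e x y) {g : Equiv.Perm X} (hg : g ∈ G) : Rel G e (g x) (g y) :=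
  fun g' hg' => h (g' * g) (mul_mem hg' hg)

end

end Pool.Agent.H56.CP
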