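import Mathlib

/-!
A regular two-graph on an odd number of points is trivial.
-/

namespace Pool.Agent.H56.CP

theorem two_graph {ι : Type} [Fintype ι] (hb : Odd (Fintype.card ι)) (T : ι → ι → ℤ)
    (hT : ∀ i j, i ≠ j → T i j = 1 ∨ T i j = -1) (hT0 : ∀ i, T i i = 0) (hsym : ∀ i j, T i j = T j i) (t : ℤ)
    (ht : ∀ i j, i ≠ j → ∑ k, T i j * T j k * T k i = t) :
    ∃ (s : ι → ℤ) (κ : ℤ), (κ = 1 ∨ κ = -1) ∧ (∀ i, s i = 1 ∨ s i = -1) ∧
      ∀ i j, i ≠ j → T i j = κ * s i * s j := by
  classical
  obtain ⟨m, hm⟩ := hb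
  have hne : Nonempty ι := by
    rw [← Fintype.card_pos_iff]
    omega
  obtain ⟨i₀⟩ := hne
  have hsq : ∀ i j, i ≠ j → T i j * T i j = 1 := by
    intro i j h
    rcases hT i j h with h1 | h1 <;> rw [h1] <;> norm_num
  set s : ι → ℤ := fun i => if i = i₀ then 1 else T i₀ i with hs
  have hs0 : s i₀ = 1 := by simp [hs]
  have hsi : ∀ i, i ≠ i₀ → s i = T i₀ i := fun i hi => by simp [hs, hi]
  have hs1 : ∀ i, s i = 1 ∨ s i = -1 := by
    intro i
    by_cases h : i = i₀
    · rw [h, hs0]; exact Or.inl rfl
    · rw [hsi i h]; exact hT i₀ i (Ne.symm h)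
  have hss : ∀ i, s i * s i = 1 := by
    intro i
    rcases hs1 i with h | h <;> rw [h] <;> norm_num
  set U : ι → ι → ℤ := fun i j => s i * s j * T i j with hU
  have hU1 : ∀ i j, i ≠ j → U i j = 1 ∨ U i j = -1 := by
    intro i j h
    simp only [hU]
    rcases hs1 i with h1 | h1 <;> rcases hs1 j with h2 | h2 <;> rcases hT i j h with h3 | h3 <;>
      rw [h1, h2, h3] <;> norm_num
  have hUU : ∀ i j, i ≠ j → U i j * U i j = 1 := by
    intro i j h
    rcases hU1 i j h with h1 | h1 <;> rw [h1] <;> norm_num
  have hUd : ∀ i, U i i = 0 := fun i => by simp only [hU, hT0, mul_zero]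
  have hUsym : ∀ i j, U i j = U j i := fun i j => by
    simp only [hU]
    rw [hsym i j]
    ring
  have hU0 : ∀ j, j ≠ i₀ → U i₀ j = 1 := by
    intro j hj
    simp only [hU]
    rw [hs0, hsi j hj, one_mul]
    exact hsq i₀ j (Ne.symm hj)
  have hUt : ∀ i j, i ≠ j → ∑ k, U i j * U j k * U k i = t := by
    intro i j h
    rw [← ht i j h]
    refine Finset.sum_congr rfl fun k _ => ?_
    simp only [hU]
    have h1 := hss i
    have h2 := hss j
    have h3 := hss k
    calc s i * s j * T i j * (s j * s k * T j k) * (s k * s i * T k i)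
        = (s i * s i) * (s j * s j) * (s k * s k) * (T i j * T j k * T k i) := by ring
      _ = T i j * T j k * T k i := by rw [h1, h2, h3]; ring
  have hrow : ∀ i, i ≠ i₀ → ∑ k, U i k = t + 1 := by
    intro i hi
    have h1 := hUt i₀ i (Ne.symm hi)
    have h2 : ∀ k, U i₀ i * U i k * U k i₀ = U i k - (if k = i₀ then 1 else 0) := by
      intro k
      rw [hU0 i hi, one_mul]
      by_cases hk : k = i₀
      · rw [hk, hUd, if_pos rfl, hUsym, hU0 i hi]
        norm_num
      · rw [if_neg hk, hUsym k i₀, hU0 k hk]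
        ring
    simp only [h2] at h1
    rw [Finset.sum_sub_distrib, Finset.sum_ite_eq' Finset.univ i₀] at h1
    simp at h1
    linarith
  have hkey : ∀ i j, i ≠ j → i ≠ i₀ → j ≠ i₀ → (4 : ℤ) ∣ (Fintype.card ι : ℤ) - t * U i j - 2 := by
    intro i j hij hi hj
    have h1 : ∑ k, U j k * U k i = t * U i j := by
      have h2 := hUt i j hij
      have h3 : ∑ k, U i j * U j k * U k i = U i j * ∑ k, U j k * U k i := by
        rw [Finset.mul_sum]
        exact Finset.sum_congr rfl fun k _ => by ring
      rw [h3] at h2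
      have h4 := hUU i j hij
      calc ∑ k, U j k * U k i = (U i j * U i j) * ∑ k, U j k * U k i := by rw [h4, one_mul]
        _ = U i j * (U i j * ∑ k, U j k * U k i) := by ring
        _ = t * U i j := by rw [h2]; ring
    have h5 : ∑ k, ((1 - U i k) * (1 + U j k) - (if k = i then 1 + U i j else 0) - (if k = j then 1 - U i j else 0)) =
        (Fintype.card ι : ℤ) - t * U i j - 2 := by
      rw [Finset.sum_sub_distrib, Finset.sum_sub_distrib, Finset.sum_ite_eq' Finset.univ i,
        Finset.sum_ite_eq' Finset.univ j]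
      have h6 : ∑ k, (1 - U i k) * (1 + U j k) = (Fintype.card ι : ℤ) - t * U i j := by
        have h7 : ∀ k, (1 - U i k) * (1 + U j k) = 1 - U i k + U j k - U j k * U k i := by
          intro k
          rw [hUsym k i]
          ring
        simp only [h7]
        rw [Finset.sum_sub_distrib, Finset.sum_add_distrib, Finset.sum_sub_distrib, hrow i hi, hrow j hj, h1]
        simp
      rw [h6]
      simp
      ring
    rw [← h5]
    refine Finset.dvd_sum fun k _ => ?_
    by_cases hki : k = i
    · subst hki
      rw [if_pos rfl, if_neg hij, hUd, hUsym j k]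
      simp
    · by_cases hkj : k = j
      · subst hkj
        rw [if_neg hki, if_pos rfl, hUd]
        simp
      · rw [if_neg hki, if_neg hkj, sub_zero, sub_zero]
        rcases hU1 i k (Ne.symm hki) with h8 | h8 <;> rcases hU1 j k (Ne.symm hkj) with h9 | h9 <;>
          rw [h8, h9] <;> norm_num
  by_cases hcase : ∃ i j, i ≠ j ∧ i ≠ i₀ ∧ j ≠ i₀ ∧ U i j = -1
  · obtain ⟨i, j, hij, hi, hj, hUij⟩ := hcase
    have hall : ∀ i' j', i' ≠ j' → i' ≠ i₀ → j' ≠ i₀ → U i' j' = -1 := by
      intro i' j' h' hi' hj'
      rcases hU1 i' j' h' with h1 | h1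
      · exfalso
        have h2 := hkey i j hij hi hj
        have h3 := hkey i' j' h' hi' hj'
        rw [hUij] at h2
        rw [h1] at h3
        rw [hm] at h2 h3
        push_cast at h2 h3
        omega
      · exact h1
    refine ⟨fun i => if i = i₀ then -1 else T i₀ i, -1, Or.inr rfl, ?_, ?_⟩
    · intro i
      by_cases h : i = i₀
      · simp [h]
      · simp only [h, if_false]
        exact hT i₀ i (Ne.symm h)
    · intro i' j' h'
      by_cases h1 : i' = i₀
      · have h2 : j' ≠ i₀ := fun h => h' (h1.trans h.symm)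
        simp only [h1, h2, if_true, if_false]
        ring
      · by_cases h2 : j' = i₀
        · simp only [h1, h2, if_true, if_false]
          rw [hsym i' i₀]
          ring
        · simp only [h1, h2, if_false]
          have h3 := hall i' j' h' h1 h2
          simp only [hU] at h3
          rw [hsi i' h1, hsi j' h2] at h3
          have h4 := hsq i₀ i' (Ne.symm h1)
          have h5 := hsq i₀ j' (Ne.symm h2)
          calc T i' j' = (T i₀ i' * T i₀ i') * (T i₀ j' * T i₀ j') * T i' j' := by rw [h4, h5]; ring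
            _ = (T i₀ i' * T i₀ j') * (T i₀ i' * T i₀ j' * T i' j') := by ring
            _ = -1 * T i₀ i' * T i₀ j' := by rw [h3]; ring
  · push Not at hcase
    refine ⟨s, 1, Or.inl rfl, hs1, ?_⟩
    intro i' j' h'
    have h0 : U i' j' = 1 := by
      by_cases h1 : i' = i₀
      · rw [h1]
        exact hU0 j' (fun h => h' (h1.trans h.symm))
      · by_cases h2 : j' = i₀
        · rw [h2, hUsym]
          exact hU0 i' h1
        · rcases hU1 i' j' h' with h3 | h3
          · exact h3
          · exact absurd h3 (hcase i' j' h' h1 h2)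
    simp only [hU] at h0
    have h4 := hss i'
    have h5 := hss j'
    calc T i' j' = (s i' * s i') * (s j' * s j') * T i' j' := by rw [h4, h5]; ring
      _ = (s i' * s j') * (s i' * s j' * T i' j') := by ring
      _ = 1 * s i' * s j' := by rw [h0]; ring

end Pool.Agent.H56.CP
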