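import Pool.Agent.H56.CP.Defs
import Pool.Agent.H56.CP.TwoGraph

/-!
Sign functions on a class of odd size on which the group is 2-homogeneous up to the involution.
-/

namespace Pool.Agent.H56.CP

section

variable {X : Type} [Fintype X] {c : X → X} {G : Subgroup (Equiv.Perm X)} {e : X → ℚ}

open Classical in
/-- The elements of `G`. -/
noncomputable def Gf (G : Subgroup (Equiv.Perm X)) : Finset (Equiv.Perm X) := Finset.univ.filter (· ∈ G)

theorem mem_Gf {g : Equiv.Perm X} : g ∈ Gf G ↔ g ∈ G := by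
  unfold Gf
  simp

theorem Gf_pos : 0 < (Gf G).card := Finset.card_pos.2 ⟨1, mem_Gf.2 G.one_mem⟩

/-- The Gram matrix of the sign functions. -/
noncomputable def gram (G : Subgroup (Equiv.Perm X)) (e : X → ℚ) (x y : X) : ℚ := ∑ g ∈ Gf G, e (g x) * e (g y)

theorem gram_symm (x y : X) : gram G e x y = gram G e y x := by
  unfold gram
  exact Finset.sum_congr rfl fun g _ => mul_comm _ _

theorem gram_smul {h : Equiv.Perm X} (hh : h ∈ G) (x y : X) : gram G e (h x) (h y) = gram G e x y := by
  unfold gram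
  refine Finset.sum_equiv (Equiv.mulRight h) (fun g => ?_) (fun g _ => rfl)
  rw [mem_Gf, mem_Gf, Equiv.coe_mulRight]
  exact ⟨fun hg => G.mul_mem hg hh, fun hg => by
    have h1 := G.mul_mem hg (G.inv_mem hh)
    rwa [mul_inv_cancel_right] at h1⟩

theorem gram_conj (hs : Setup c G e) (x y : X) : gram G e (c x) y = - gram G e x y := by
  unfold gram
  rw [← Finset.sum_neg_distrib]
  refine Finset.sum_congr rfl fun g hg => ?_
  rw [hs.comm g (mem_Gf.1 hg), hs.odd]
  ring

theorem gram_conj' (hs : Setup c G e) (x y : X) : gram G e x (c y) = - gram G e x y := by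
  rw [gram_symm, gram_conj hs, gram_symm]

theorem gram_self (hs : Setup c G e) (x : X) : gram G e x x = (Gf G).card := by
  unfold gram
  simp only [hs.sq]
  simp

theorem gram_perp {f : X → ℚ} (hf : Perp G e f) (x : X) : ∑ y, f y * gram G e x y = 0 := by
  unfold gram
  simp only [Finset.mul_sum]
  rw [Finset.sum_comm]
  refine Finset.sum_eq_zero fun g hg => ?_
  have h1 := hf g (mem_Gf.1 hg)
  have h2 : ∑ y, f y * (e (g x) * e (g y)) = e (g x) * ∑ y, f y * e (g y) := by
    rw [Finset.mul_sum]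
    exact Finset.sum_congr rfl fun y _ => by ring
  rw [h2, h1, mul_zero]

theorem gram_abs (hs : Setup c G e) (x y : X) (s : ℚ) (hs1 : s = 1 ∨ s = -1) (h : gram G e x y = s * (Gf G).card)
    {g : Equiv.Perm X} (hg : g ∈ G) : e (g x) * e (g y) = s := by
  have h1 : ∑ g ∈ Gf G, (1 - s * (e (g x) * e (g y))) = 0 := by
    rw [Finset.sum_sub_distrib, ← Finset.mul_sum]
    have h2 : ∑ g ∈ Gf G, e (g x) * e (g y) = s * (Gf G).card := h
    rw [h2]
    simp only [Finset.sum_const, nsmul_eq_mul, mul_one]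
    rcases hs1 with h3 | h3 <;> rw [h3] <;> ring
  have hnn : ∀ g ∈ Gf G, 0 ≤ 1 - s * (e (g x) * e (g y)) := by
    intro g _
    rcases hs1 with h3 | h3 <;> rcases hs.pm (g x) with h4 | h4 <;> rcases hs.pm (g y) with h5 | h5 <;>
      rw [h3, h4, h5] <;> norm_num
  have h2 := (Finset.sum_eq_zero_iff_of_nonneg hnn).1 h1 g (mem_Gf.2 hg)
  rcases hs1 with h3 | h3
  · rw [h3] at h2 ⊢
    linarith
  · rw [h3] at h2 ⊢
    linarith

open Classical in
theorem sum_reps (hs : Setup c G e) (S : Set X) (F : X → ℚ) (hFc : ∀ x, F (c x) = F x)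
    (hFS : ∀ x, F x ≠ 0 → x ∈ S) : ∑ x, F x = 2 * ∑ i : {x // x ∈ S ∧ e x = 1}, F i := by
  have h1 : ∀ x, F x = (if e x = 1 then F x else 0) + (if e x = 1 then 0 else F x) := by
    intro x
    split_ifs <;> ring
  have h2 : ∑ x, (if e x = 1 then 0 else F x) = ∑ x, if e x = 1 then F x else 0 := by
    rw [← Equiv.sum_comp hs.perm]
    refine Finset.sum_congr rfl fun x _ => ?_
    rw [hs.perm_apply, hs.odd, hFc]
    rcases hs.pm x with h3 | h3
    · rw [h3, if_neg (by norm_num), if_pos rfl]
    · rw [h3, if_pos (by norm_num), if_neg (by norm_num)]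
  have h3 : ∑ x, (if e x = 1 then F x else 0) = ∑ i : {x // x ∈ S ∧ e x = 1}, F i := by
    rw [← Finset.sum_subtype (Finset.univ.filter fun x => x ∈ S ∧ e x = 1) (fun x => by simp) F,
      Finset.sum_filter]
    refine Finset.sum_congr rfl fun x _ => ?_
    by_cases h4 : e x = 1
    · by_cases h5 : x ∈ S
      · rw [if_pos h4, if_pos ⟨h5, h4⟩]
      · rw [if_pos h4, if_neg (fun h => h5 h.1)]
        by_contra h6
        exact h5 (hFS x h6)
    · rw [if_neg h4, if_neg (fun h => h4 h.2)]
  rw [Finset.sum_congr rfl fun x _ => h1 x, Finset.sum_add_distrib, h2, h3]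
  ring

open Classical in
theorem card_reps (hs : Setup c G e) (S : Set X) (hSc : ∀ x ∈ S, c x ∈ S) (b : ℕ) (hb : Nat.card S = 2 * b) :
    Fintype.card {x // x ∈ S ∧ e x = 1} = b := by
  have h1 := sum_reps hs S (fun x => if x ∈ S then 1 else 0) (fun x => by
      have : c x ∈ S ↔ x ∈ S := ⟨fun h => by rw [← hs.invol x]; exact hSc _ h, hSc x⟩
      simp only [this]) (fun x h => by
      by_contra h2
      exact h (if_neg h2))
  have h2 : ∑ x, (if x ∈ S then (1 : ℚ) else 0) = Nat.card S := by
    rw [Finset.sum_boole, Nat.card_eq_fintype_card, Fintype.card_subtype]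
  have h3 : ∑ i : {x // x ∈ S ∧ e x = 1}, (if (i : X) ∈ S then (1 : ℚ) else 0) =
      Fintype.card {x // x ∈ S ∧ e x = 1} := by
    rw [Finset.sum_congr rfl fun i _ => if_pos i.2.1]
    simp
  rw [h2, h3, hb] at h1
  push_cast at h1
  have h4 : (b : ℚ) = Fintype.card {x // x ∈ S ∧ e x = 1} := by linarith
  exact_mod_cast h4.symm

theorem odd_signs_ne_zero {ι : Type} [Fintype ι] (hb : Odd (Fintype.card ι)) (s : ι → ℤ)
    (hs : ∀ i, s i = 1 ∨ s i = -1) : ∑ i, s i ≠ 0 := by
  intro h
  have h1 : ∀ i, ∃ k, s i = 2 * k + 1 := by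
    intro i
    rcases hs i with h | h
    · exact ⟨0, by rw [h]; norm_num⟩
    · exact ⟨-1, by rw [h]; norm_num⟩
  choose k hk using h1
  rw [Finset.sum_congr rfl fun i _ => hk i, Finset.sum_add_distrib, ← Finset.mul_sum] at h
  simp only [Finset.sum_const, Finset.card_univ, nsmul_eq_mul, mul_one] at h
  obtain ⟨m, hm⟩ := hb
  rw [hm] at h
  push_cast at h
  omega

/-- `G` is 2-homogeneous on the pairs `{x, c x}` of `S`. -/
def TwoHom (c : X → X) (G : Subgroup (Equiv.Perm X)) (S : Set X) : Prop :=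
  ∀ x ∈ S, ∀ y ∈ S, ∀ x' ∈ S, ∀ y' ∈ S, y ≠ x → y ≠ c x → y' ≠ x' → y' ≠ c x' →
    ∃ g ∈ G, ((g x = x' ∨ g x = c x') ∧ (g y = y' ∨ g y = c y')) ∨
      ((g x = y' ∨ g x = c y') ∧ (g y = x' ∨ g y = c x'))

/-- A quantity that is invariant under `G`, `c` and symmetric is constant. -/
theorem const_of_twoHom (hs : Setup c G e) {S : Set X} (hSc : ∀ x ∈ S, c x ∈ S) (h2 : TwoHom c G S)
    (N : X → X → ℚ) (hN : ∀ g ∈ G, ∀ x ∈ S, ∀ y ∈ S, g x ∈ S → N (g x) (g y) = N x y)
    (hNc : ∀ x y, N (c x) y = N x y) (hNs : ∀ x y, N x y = N y x) (x y x' y' : X) (hx : x ∈ S) (hy : y ∈ S)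
    (hx' : x' ∈ S) (hy' : y' ∈ S) (hxy : y ≠ x) (hxy2 : y ≠ c x) (hxy' : y' ≠ x') (hxy2' : y' ≠ c x') :
    N x y = N x' y' := by
  have hNc' : ∀ x y, N x (c y) = N x y := fun x y => by rw [hNs, hNc, hNs]
  obtain ⟨g, hg, h⟩ := h2 x hx y hy x' hx' y' hy' hxy hxy2 hxy' hxy2'
  rcases h with ⟨h1 | h1, h3 | h3⟩ | ⟨h1 | h1, h3 | h3⟩
  · rw [← hN g hg x hx y hy (by rw [h1]; exact hx'), h1, h3]
  · rw [← hN g hg x hx y hy (by rw [h1]; exact hx'), h1, h3, hNc']
  · rw [← hN g hg x hx y hy (by rw [h1]; exact hSc _ hx'), h1, h3, hNc]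
  · rw [← hN g hg x hx y hy (by rw [h1]; exact hSc _ hx'), h1, h3, hNc, hNc']
  · rw [← hN g hg x hx y hy (by rw [h1]; exact hy'), h1, h3, hNs]
  · rw [← hN g hg x hx y hy (by rw [h1]; exact hy'), h1, h3, hNc', hNs]
  · rw [← hN g hg x hx y hy (by rw [h1]; exact hSc _ hy'), h1, h3, hNc, hNs]
  · rw [← hN g hg x hx y hy (by rw [h1]; exact hSc _ hy'), h1, h3, hNc, hNc', hNs]

open Classical in
/-- **The local condition for 2-homogeneous classes of odd size.** -/
theorem local_twoHom (hs : Setup c G e) (S : Set X) (hSc : ∀ x ∈ S, c x ∈ S)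
    (hB : ∀ g ∈ G, ∀ x ∈ S, g x ∈ S → ∀ y, g y ∈ S ↔ y ∈ S) (h2 : TwoHom c G S)
    (hodd : Odd (Fintype.card {x // x ∈ S ∧ e x = 1})) : IndepOn c G e S := by
  intro f hfodd hfS hfrel hperp
  set ι := {x // x ∈ S ∧ e x = 1} with hι
  -- it is enough to know the values at the representatives
  suffices hz : ∀ i : ι, f i = 0 by
    funext x
    rw [Pi.zero_apply]
    by_cases hx : x ∈ S
    · rcases hs.pm x with h | h
      · exact hz ⟨x, hx, h⟩
      · have h3 : e (c x) = 1 := by rw [hs.odd, h, neg_neg]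
        have h4 := hz ⟨c x, hSc x hx, h3⟩
        change f (c x) = 0 at h4
        rw [hfodd] at h4
        linarith
    · by_contra h
      exact hx (hfS x h)
  have hne : ∀ i j : ι, i ≠ j → (j : X) ≠ i := fun i j h h' => h (Subtype.ext h'.symm)
  have hnc : ∀ i j : ι, (j : X) ≠ c i := by
    intro i j h
    have h3 := j.2.2
    rw [h, hs.odd, i.2.2] at h3
    norm_num at h3
  -- the relations
  have hrel : ∀ g ∈ G, ∑ i : ι, f i * e (g i) = 0 := by
    intro g hg
    have h3 := sum_reps hs S (fun x => f x * e (g x)) (fun x => by rw [hfodd, hs.comm g hg, hs.odd]; ring)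
      (fun x h => hfS x (fun h' => h (by rw [h', zero_mul])))
    rw [hperp g hg] at h3
    linarith
  have hone : ∑ i : ι, f i = 0 := by
    rw [← hrel 1 G.one_mem]
    refine Finset.sum_congr rfl fun i _ => ?_
    rw [Equiv.Perm.one_apply, i.2.2, mul_one]
  have hker : ∀ i : ι, ∑ j : ι, f j * gram G e i j = 0 := by
    intro i
    have h3 := sum_reps hs S (fun x => f x * gram G e i x) (fun x => by rw [hfodd, gram_conj' hs]; ring)
      (fun x h => hfS x (fun h' => h (by rw [h', zero_mul])))
    rw [gram_perp hperp] at h3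
    linarith
  set q : ℚ := ((Gf G).card : ℚ) with hq
  have hqpos : 0 < q := by
    rw [hq]
    exact_mod_cast (Gf_pos (G := G))
  by_cases hcase : ∃ i j : ι, i ≠ j ∧ gram G e i j ≠ 0
  swap
  · push Not at hcase
    intro i
    have h3 := hker i
    rw [Finset.sum_eq_single i (fun j _ hj => by rw [hcase i j (Ne.symm hj), mul_zero])
      (fun h => absurd (Finset.mem_univ _) h), gram_self hs] at h3
    rcases mul_eq_zero.1 h3 with h4 | h4
    · exact h4
    · exact absurd h4 hqpos.ne'
  obtain ⟨i₁, j₁, hij₁, hg₁⟩ := hcase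
  set cc : ℚ := |gram G e i₁ j₁| with hcc
  have hccpos : 0 < cc := abs_pos.2 hg₁
  have habs : ∀ i j : ι, i ≠ j → |gram G e i j| = cc := by
    intro i j hij
    refine const_of_twoHom hs hSc h2 (fun x y => |gram G e x y|) (fun g hg x _ y _ _ => by
      rw [gram_smul hg]) (fun x y => by rw [gram_conj hs, abs_neg]) (fun x y => by
      rw [gram_symm]) i j i₁ j₁ i.2.1 j.2.1 i₁.2.1 j₁.2.1 (hne i j hij) (hnc i j)
      (hne i₁ j₁ hij₁) (hnc i₁ j₁)
  -- the signs of the Gram matrix
  set T : ι → ι → ℤ := fun i j => if i = j then 0 else if 0 < gram G e i j then 1 else -1 with hT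
  have hT0 : ∀ i, T i i = 0 := fun i => by simp [hT]
  have hT1 : ∀ i j, i ≠ j → T i j = 1 ∨ T i j = -1 := by
    intro i j h
    simp only [hT, h, if_false]
    split_ifs
    · exact Or.inl rfl
    · exact Or.inr rfl
  have hTs : ∀ i j : ι, T i j = T j i := by
    intro i j
    simp only [hT]
    rw [gram_symm (G := G) (e := e) (j : X) i]
    by_cases h : i = j
    · rw [if_pos h, if_pos h.symm]
    · rw [if_neg h, if_neg (Ne.symm h)]
  have hTg : ∀ i j : ι, i ≠ j → gram G e i j = cc * T i j := by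
    intro i j h
    have h3 := habs i j h
    simp only [hT, h, if_false]
    by_cases h4 : 0 < gram G e i j
    · rw [if_pos h4]
      rw [abs_of_pos h4] at h3
      rw [h3]
      push_cast
      ring
    · rw [if_neg h4]
      have h5 : gram G e i j ≤ 0 := not_lt.1 h4
      rw [abs_of_nonpos h5] at h3
      push_cast
      linarith
  -- the triple products
  set N : X → X → ℚ := fun x y => ∑ z, if z ∈ S then gram G e x y * gram G e y z * gram G e z x else 0 with hN
  have hN1 : ∀ i j : ι, N i j = 2 * ∑ k : ι, gram G e i j * gram G e j k * gram G e k i := by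
    intro i j
    have h3 := sum_reps hs S (fun z => if z ∈ S then gram G e i j * gram G e j z * gram G e z i else 0)
      (fun z => by
        have : c z ∈ S ↔ z ∈ S := ⟨fun h => by rw [← hs.invol z]; exact hSc _ h, hSc z⟩
        simp only [this, gram_conj hs, gram_conj' hs]
        split_ifs <;> ring) (fun z h => by
        by_contra h'
        exact h (if_neg h'))
    rw [hN]
    simp only
    rw [h3]
    congr 1
    refine Finset.sum_congr rfl fun k _ => if_pos k.2.1
  have hN2 : ∀ i j : ι, i ≠ j → N i j = 2 * (cc ^ 3 * ((∑ k, T i j * T j k * T k i : ℤ) : ℚ) + 2 * (q * cc ^ 2)) := by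
    intro i j hij
    rw [hN1]
    congr 1
    have h3 : ∀ k : ι, gram G e i j * gram G e j k * gram G e k i =
        cc ^ 3 * ((T i j * T j k * T k i : ℤ) : ℚ) + (if k = i then q * cc ^ 2 else 0) +
          (if k = j then q * cc ^ 2 else 0) := by
      intro k
      have hTT : ((T i j : ℤ) : ℚ) * T i j = 1 := by
        rcases hT1 i j hij with h | h <;> rw [h] <;> norm_num
      by_cases hki : k = i
      · subst hki
        rw [if_pos rfl, if_neg hij, hT0, gram_self hs, gram_symm (j : X) k, hTg k j hij]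
        push_cast
        linear_combination (cc ^ 2 * q) * hTT
      · by_cases hkj : k = j
        · subst hkj
          rw [if_neg hki, if_pos rfl, hT0, gram_self hs, gram_symm (k : X) i, hTg i k hij]
          push_cast
          linear_combination (cc ^ 2 * q) * hTT
        · rw [if_neg hki, if_neg hkj, hTg i j hij, hTg j k (Ne.symm hkj), hTg k i hki]
          push_cast
          ring
    rw [Finset.sum_congr rfl fun k _ => h3 k, Finset.sum_add_distrib, Finset.sum_add_distrib,
      Finset.sum_ite_eq' Finset.univ i, Finset.sum_ite_eq' Finset.univ j, ← Finset.mul_sum]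
    simp only [Finset.mem_univ, if_true]
    push_cast
    ring
  have hN3 : ∀ i j : ι, i ≠ j → N i j = N i₁ j₁ := by
    intro i j hij
    refine const_of_twoHom hs hSc h2 N (fun g hg x hx y _ hgx => ?_) (fun x y => ?_) (fun x y => ?_) i j i₁ j₁ i.2.1
      j.2.1 i₁.2.1 j₁.2.1 (hne i j hij) (hnc i j) (hne i₁ j₁ hij₁) (hnc i₁ j₁)
    · simp only [hN]
      rw [← Equiv.sum_comp g]
      refine Finset.sum_congr rfl fun z _ => ?_
      simp only [hB g hg x hx hgx z, gram_smul hg]
    · simp only [hN]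
      refine Finset.sum_congr rfl fun z _ => ?_
      rw [gram_conj hs, gram_conj' hs]
      split_ifs <;> ring
    · simp only [hN]
      refine Finset.sum_congr rfl fun z _ => ?_
      rw [gram_symm (G := G) (e := e) y x, gram_symm (G := G) (e := e) x z, gram_symm (G := G) (e := e) z y]
      split_ifs <;> ring
  have hcoh : ∀ i j, i ≠ j → ∑ k, T i j * T j k * T k i = ∑ k, T i₁ j₁ * T j₁ k * T k i₁ := by
    intro i j hij
    have h3 := hN3 i j hij
    rw [hN2 i j hij, hN2 i₁ j₁ hij₁] at h3
    have h4 : cc ^ 3 * ((∑ k, T i j * T j k * T k i : ℤ) : ℚ) = cc ^ 3 * ((∑ k, T i₁ j₁ * T j₁ k * T k i₁ : ℤ) : ℚ) := by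
      linarith
    have h5 := mul_left_cancel₀ (pow_pos hccpos 3).ne' h4
    exact_mod_cast h5
  obtain ⟨s, κ, hκ, hs1, hTs2⟩ := two_graph hodd T hT1 hT0 hTs _ hcoh
  have hss : ∀ i, ((s i : ℤ) : ℚ) * s i = 1 := by
    intro i
    rcases hs1 i with h | h <;> rw [h] <;> norm_num
  -- the kernel of the Gram matrix
  set σ : ℚ := ∑ j : ι, f j * s j with hσ
  have hkey : ∀ i : ι, (q - cc * κ) * f i = - (cc * κ * s i * σ) := by
    intro i
    have h3 : ∑ j : ι, f j * gram G e i j = cc * κ * s i * σ + (q - cc * κ) * f i := by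
      have h4 : ∀ j : ι, f j * gram G e i j = cc * κ * s i * (f j * s j) +
          (if j = i then (q - cc * κ) * f i else 0) := by
        intro j
        by_cases hj : j = i
        · subst hj
          rw [if_pos rfl, gram_self hs]
          linear_combination (- cc * κ * f j) * hss j
        · rw [if_neg hj, hTg i j (Ne.symm hj), hTs2 i j (Ne.symm hj)]
          push_cast
          ring
      rw [Finset.sum_congr rfl fun j _ => h4 j, Finset.sum_add_distrib, Finset.sum_ite_eq' Finset.univ i,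
        ← Finset.mul_sum, if_pos (Finset.mem_univ _)]
    have h5 := hker i
    rw [h3] at h5
    linarith
  have hsum : ((∑ i, s i : ℤ) : ℚ) ≠ 0 := by
    exact_mod_cast odd_signs_ne_zero hodd s hs1
  by_cases hqc : q = cc * κ
  · -- the signs are equal up to `s`
    have hκ1 : κ = 1 := by
      rcases hκ with h | h
      · exact h
      · exfalso
        rw [h] at hqc
        push_cast at hqc
        linarith
    have hF : ∀ i j : ι, i ≠ j → ∀ g ∈ G, e (g i) * e (g j) = ((s i * s j : ℤ) : ℚ) := by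
      intro i j hij g hg
      apply gram_abs hs (i : X) j _ ?_ ?_ hg
      · rcases hs1 i with h | h <;> rcases hs1 j with h' | h' <;> rw [h, h'] <;> norm_num
      · rw [hTg i j hij, hTs2 i j hij]
        push_cast
        rw [← hq, hqc]
        ring
    have heq : ∀ i j : ι, f i = f j := by
      intro i j
      by_cases hij : i = j
      · rw [hij]
      · apply hfrel i i.2.1 j j.2.1
        have h3 := hF i j hij 1 G.one_mem
        rw [Equiv.Perm.one_apply, Equiv.Perm.one_apply, i.2.2, j.2.2, one_mul] at h3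
        intro g hg
        have h4 := hF i j hij g hg
        rw [← h3] at h4
        have h5 := hs.sq (g j)
        calc e (g i) = e (g i) * (e (g j) * e (g j)) := by rw [h5, mul_one]
          _ = (e (g i) * e (g j)) * e (g j) := by ring
          _ = e (g j) := by rw [h4, one_mul]
    intro i
    have h3 : ∑ j : ι, f j = (Fintype.card ι : ℚ) * f i := by
      rw [Finset.sum_congr rfl fun j _ => heq j i]
      simp
    rw [hone] at h3
    rcases mul_eq_zero.1 h3.symm with h4 | h4
    · exfalso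
      have h5 : 0 < Fintype.card ι := Fintype.card_pos_iff.2 ⟨i⟩
      have h6 : (0 : ℚ) < Fintype.card ι := by exact_mod_cast h5
      exact h6.ne' h4
    · exact h4
  · have hd : q - cc * κ ≠ 0 := sub_ne_zero.2 hqc
    have hf : ∀ i : ι, f i = s i * (- (cc * κ * σ) / (q - cc * κ)) := by
      intro i
      have h3 := hkey i
      field_simp
      linear_combination h3
    have h3 : ∑ i : ι, f i = ((∑ i, s i : ℤ) : ℚ) * (- (cc * κ * σ) / (q - cc * κ)) := by
      rw [Finset.sum_congr rfl fun i _ => hf i, ← Finset.sum_mul]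
      push_cast
      rfl
    rw [hone] at h3
    have h4 := (mul_eq_zero.1 h3.symm).resolve_left hsum
    intro i
    rw [hf i, h4, mul_zero]

end

end Pool.Agent.H56.CP
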