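import Pool.Agent.H56.CP.Gram
import Pool.Agent.H42.CM9.ZPrime

/-!
Sign functions on a class with `2b` elements, `b = 1` or `b` prime, on which the group is transitive.
-/

namespace Pool.Agent.H56.CP

open Pool.Agent.H42.CM9

section

variable {X : Type} [Fintype X] {c : X → X} {G : Subgroup (Equiv.Perm X)} {e : X → ℚ}

/-- The permutations of `S` induced by elements of `G`. -/
def clsGrp (G : Subgroup (Equiv.Perm X)) (S : Set X) : Subgroup (Equiv.Perm {y // y ∈ S}) where
  carrier := {g | ∃ θ ∈ G, ∀ y : {y // y ∈ S}, ((g y : {y // y ∈ S}) : X) = θ y}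
  one_mem' := ⟨1, G.one_mem, fun y => rfl⟩
  mul_mem' := by
    rintro g g' ⟨θ, hθ, h⟩ ⟨θ', hθ', h'⟩
    refine ⟨θ * θ', G.mul_mem hθ hθ', fun y => ?_⟩
    rw [Equiv.Perm.mul_apply, h, h', Equiv.Perm.mul_apply]
  inv_mem' := by
    rintro g ⟨θ, hθ, h⟩
    refine ⟨θ⁻¹, G.inv_mem hθ, fun y => ?_⟩
    have h1 := h (g⁻¹ y)
    have h2 : g (g⁻¹ y) = y := Equiv.apply_symm_apply g y
    rw [h2] at h1
    rw [h1]
    exact (Equiv.symm_apply_apply θ _).symm

theorem clsGrp_trans {S : Set X} (hB : ∀ g ∈ G, ∀ x ∈ S, g x ∈ S → ∀ y, g y ∈ S ↔ y ∈ S)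
    (ht : ∀ x ∈ S, ∀ y ∈ S, ∃ g ∈ G, g x = y) (y z : {y // y ∈ S}) : ∃ g ∈ clsGrp G S, g y = z := by
  obtain ⟨θ, hθ, h⟩ := ht y y.2 z z.2
  let g : Equiv.Perm {y // y ∈ S} := θ.subtypePerm (fun w => hB θ hθ y y.2 (by rw [h]; exact z.2) w)
  exact ⟨g, ⟨θ, hθ, fun w => rfl⟩, Subtype.ext h⟩

theorem cls_card_dvd {S : Set X} (hB : ∀ g ∈ G, ∀ x ∈ S, g x ∈ S → ∀ y, g y ∈ S ↔ y ∈ S)
    (ht : ∀ x ∈ S, ∀ y ∈ S, ∃ g ∈ G, g x = y) (x : X) (hx : x ∈ S) : Nat.card S ∣ Nat.card (clsGrp G S) := by
  classical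
  have hpre : MulAction.IsPretransitive (clsGrp G S) {y // y ∈ S} := by
    refine ⟨fun y z => ?_⟩
    obtain ⟨g, hg, h⟩ := clsGrp_trans hB ht y z
    exact ⟨⟨g, hg⟩, h⟩
  have h1 := MulAction.index_stabilizer_of_transitive (clsGrp G S) (⟨x, hx⟩ : {y // y ∈ S})
  have h2 := (MulAction.stabilizer (clsGrp G S) (⟨x, hx⟩ : {y // y ∈ S})).index_dvd_card
  rw [h1] at h2
  exact h2

theorem exists_rot (hs : Setup c G e) {S : Set X} (hSc : ∀ x ∈ S, c x ∈ S)
    (hB : ∀ g ∈ G, ∀ x ∈ S, g x ∈ S → ∀ y, g y ∈ S ↔ y ∈ S)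
    (ht : ∀ x ∈ S, ∀ y ∈ S, ∃ g ∈ G, g x = y) (x : X) (hx : x ∈ S) (p : ℕ) [NeZero p] (hp : p.Prime) (hp2 : p ≠ 2)
    (hcard : Nat.card S = 2 * p) :
    ∃ u : ZMod p → X, (∀ i, u i ∈ S) ∧ Function.Injective u ∧ (∀ i j, u i ≠ c (u j)) ∧
      (∀ m, ∃ θ ∈ G, ∀ i, θ (u i) = u (m + i)) := by
  classical
  have : Fact p.Prime := ⟨hp⟩
  have hcc := hs.invol
  have hdvd : p ∣ Nat.card (clsGrp G S) := (Dvd.intro_left 2 hcard.symm).trans (cls_card_dvd hB ht x hx)
  obtain ⟨⟨g, hg⟩, hgo⟩ := exists_prime_orderOf_dvd_card' p hdvd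
  rw [← Subgroup.orderOf_coe] at hgo
  change orderOf g = p at hgo
  have hgp : g ^ p = 1 := by rw [← hgo]; exact pow_orderOf_eq_one g
  have hg1 : g ≠ 1 := by
    rintro rfl
    rw [orderOf_one] at hgo
    exact hp.one_lt.ne hgo
  obtain ⟨y, hy⟩ : ∃ y, g y ≠ y := by
    by_contra hcon
    push Not at hcon
    exact hg1 (Equiv.ext hcon)
  have hfix : ∀ k : ZMod p, gx g p hgp k y = y → k = 0 := by
    intro k hk
    by_contra hk0
    have h1 : ∀ n : ℕ, gx g p hgp ((n : ZMod p) * k) y = y := by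
      intro n
      induction n with
      | zero =>
        have h2 : ((0 : ℕ) : ZMod p) * k = ((0 : ℕ) : ZMod p) := by simp
        rw [h2, gx_natCast, pow_zero]
        rfl
      | succ n ih =>
        have h2 : ((n + 1 : ℕ) : ZMod p) * k = (n : ZMod p) * k + k := by push_cast; ring
        rw [h2, gx_add, Equiv.Perm.mul_apply, hk, ih]
    have h2 := h1 (k⁻¹).val
    rw [ZMod.natCast_zmod_val, inv_mul_cancel₀ hk0] at h2
    have h3 : gx g p hgp (1 : ZMod p) = g := by
      have := gx_natCast g p hgp 1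
      rwa [Nat.cast_one, pow_one] at this
    rw [h3] at h2
    exact hy h2
  have hinj : Function.Injective (fun i : ZMod p => ((gx g p hgp i y : {y // y ∈ S}) : X)) := by
    intro i j hij
    have h1 : gx g p hgp i y = gx g p hgp j y := Subtype.ext hij
    have h2 : gx g p hgp (i - j) y = y := by
      have h3 : gx g p hgp i = gx g p hgp j * gx g p hgp (i - j) := by
        rw [← gx_add]
        congr 1
        ring
      rw [h3, Equiv.Perm.mul_apply] at h1
      exact (gx g p hgp j).injective h1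
    exact sub_eq_zero.1 (hfix _ h2)
  have hshift : ∀ m, ∃ θ ∈ G, ∀ i,
      θ ((gx g p hgp i y : {y // y ∈ S}) : X) = (gx g p hgp (m + i) y : {y // y ∈ S}) := by
    intro m
    have h1 : gx g p hgp m ∈ clsGrp G S := by
      have h2 := gx_mem g p hgp m
      exact (Subgroup.zpowers_le.2 hg) h2
    obtain ⟨θ, hθ, hθ'⟩ := h1
    refine ⟨θ, hθ, fun i => ?_⟩
    rw [gx_add, Equiv.Perm.mul_apply, hθ']
  refine ⟨fun i => ((gx g p hgp i y : {y // y ∈ S}) : X), fun i => (gx g p hgp i y).2, hinj, ?_, hshift⟩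
  intro i j hij
  obtain ⟨θ, hθ, hθ'⟩ := hshift (i - j)
  have h1 := hθ' j
  have h2 := hθ' i
  rw [sub_add_cancel] at h1
  simp only at hij
  rw [hij, hs.comm θ hθ, h1] at h2
  rw [hij, hcc] at h2
  have h3 := hinj h2
  have h4 : (2 : ZMod p) * (i - j) = 0 := by linear_combination -h3
  have h5 : (2 : ZMod p) ≠ 0 := by
    intro h
    have h6 : ((2 : ℕ) : ZMod p) = 0 := by exact_mod_cast h
    rw [ZMod.natCast_eq_zero_iff] at h6
    have h7 := Nat.le_of_dvd (by norm_num) h6
    have := hp.two_le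
    omega
  have h6 : i = j := sub_eq_zero.1 ((mul_eq_zero.1 h4).resolve_left h5)
  rw [h6] at hij
  exact hs.ne _ hij.symm

theorem coord_sum (hs : Setup c G e) {ι : Type} [Fintype ι] {S : Set X} (hSc : ∀ x ∈ S, c x ∈ S) (u : ι → X)
    (hu : ∀ i, u i ∈ S) (hinj : Function.Injective u) (hconj : ∀ i j, u i ≠ c (u j))
    (hcard : Nat.card S = 2 * Fintype.card ι) (F : X → ℚ) (hF : ∀ z, F z ≠ 0 → z ∈ S)
    (hFc : ∀ z, F (c z) = F z) : ∑ z, F z = 2 * ∑ i, F (u i) := by
  classical
  have hv : Function.Injective (Sum.elim u (fun i => c (u i))) := by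
    rintro (i | i) (j | j) hij
    · rw [hinj hij]
    · exact absurd hij (hconj i j)
    · exact absurd hij.symm (hconj j i)
    · rw [hinj (hs.inj hij)]
  set Sf : Finset X := Finset.univ.filter (· ∈ S) with hSf
  have hSfc : Sf.card = 2 * Fintype.card ι := by
    rw [← hcard, Nat.card_eq_fintype_card, Fintype.card_subtype]
  have himg : Finset.univ.image (Sum.elim u (fun i => c (u i))) = Sf := by
    apply Finset.eq_of_subset_of_card_le
    · intro z hz
      rw [Finset.mem_image] at hz
      obtain ⟨s, -, rfl⟩ := hz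
      rw [hSf, Finset.mem_filter]
      refine ⟨Finset.mem_univ _, ?_⟩
      rcases s with i | i
      · exact hu i
      · exact hSc _ (hu i)
    · rw [Finset.card_image_of_injective _ hv, Finset.card_univ, Fintype.card_sum, hSfc]
      omega
  have h1 : ∑ z, F z = ∑ z ∈ Sf, F z := by
    symm
    apply Finset.sum_subset (Finset.subset_univ _)
    intro z _ hz
    by_contra h
    exact hz (by rw [hSf, Finset.mem_filter]; exact ⟨Finset.mem_univ _, hF z h⟩)
  rw [h1, ← himg, Finset.sum_image (fun a _ b _ h => hv h), Fintype.sum_sum_type]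
  simp only [Sum.elim_inl, Sum.elim_inr, hFc]
  ring

theorem coord_cover (hs : Setup c G e) {ι : Type} [Fintype ι] {S : Set X} (hSc : ∀ x ∈ S, c x ∈ S) (u : ι → X)
    (hu : ∀ i, u i ∈ S) (hinj : Function.Injective u) (hconj : ∀ i j, u i ≠ c (u j))
    (hcard : Nat.card S = 2 * Fintype.card ι) (z : X) (hz : z ∈ S) : ∃ i, z = u i ∨ z = c (u i) := by
  classical
  have hv : Function.Injective (Sum.elim u (fun i => c (u i))) := by
    rintro (i | i) (j | j) hij
    · rw [hinj hij]
    · exact absurd hij (hconj i j)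
    · exact absurd hij.symm (hconj j i)
    · rw [hinj (hs.inj hij)]
  set Sf : Finset X := Finset.univ.filter (· ∈ S) with hSf
  have hSfc : Sf.card = 2 * Fintype.card ι := by
    rw [← hcard, Nat.card_eq_fintype_card, Fintype.card_subtype]
  have himg : Finset.univ.image (Sum.elim u (fun i => c (u i))) = Sf := by
    apply Finset.eq_of_subset_of_card_le
    · intro z hz
      rw [Finset.mem_image] at hz
      obtain ⟨s, -, rfl⟩ := hz
      rw [hSf, Finset.mem_filter]
      refine ⟨Finset.mem_univ _, ?_⟩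
      rcases s with i | i
      · exact hu i
      · exact hSc _ (hu i)
    · rw [Finset.card_image_of_injective _ hv, Finset.card_univ, Fintype.card_sum, hSfc]
      omega
  have hz' : z ∈ Finset.univ.image (Sum.elim u (fun i => c (u i))) := by
    rw [himg, hSf, Finset.mem_filter]
    exact ⟨Finset.mem_univ _, hz⟩
  rw [Finset.mem_image] at hz'
  obtain ⟨s, -, h⟩ := hz'
  rcases s with i | i
  · exact ⟨i, Or.inl h.symm⟩
  · exact ⟨i, Or.inr h.symm⟩

/-- Independence in coordinates. -/
theorem indepOn_of_coords (hs : Setup c G e) {ι : Type} [Fintype ι] {S : Set X} (hSc : ∀ x ∈ S, c x ∈ S) (u : ι → X)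
    (hu : ∀ i, u i ∈ S) (hinj : Function.Injective u) (hconj : ∀ i j, u i ≠ c (u j))
    (hcard : Nat.card S = 2 * Fintype.card ι)
    (H : ∀ f : X → ℚ, OddF c f → (∀ x ∈ S, ∀ y ∈ S, Rel G e x y → f x = f y) →
      (∀ g ∈ G, ∑ i, f (u i) * e (g (u i)) = 0) → ∀ i, f (u i) = 0) : IndepOn c G e S := by
  intro f hodd hfS hrel hperp
  have h1 : ∀ g ∈ G, ∑ i, f (u i) * e (g (u i)) = 0 := by
    intro g hg
    have h2 := coord_sum hs hSc u hu hinj hconj hcard (fun x => f x * e (g x))
      (fun z hz => hfS z (fun h => hz (by rw [h, zero_mul])))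
      (fun z => by rw [hodd, hs.comm g hg, hs.odd]; ring)
    rw [hperp g hg] at h2
    linarith
  have h3 := H f hodd hrel h1
  funext z
  rw [Pi.zero_apply]
  by_contra hz
  obtain ⟨i, hi | hi⟩ := coord_cover hs hSc u hu hinj hconj hcard z (hfS z hz)
  · rw [hi, h3] at hz
    exact hz rfl
  · rw [hi, hodd, h3, neg_zero] at hz
    exact hz rfl

theorem local_one' (hs : Setup c G e) {S : Set X} (hSc : ∀ x ∈ S, c x ∈ S) (hcard : Nat.card S = 2) :
    IndepOn c G e S := by
  classical
  obtain ⟨x, hx⟩ : ∃ x, x ∈ S := by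
    by_contra hcon
    push Not at hcon
    have : S = ∅ := Set.eq_empty_of_forall_notMem hcon
    rw [this] at hcard
    simp at hcard
  refine indepOn_of_coords hs hSc (ι := Unit) (fun _ => x) (fun _ => hx) (fun _ _ _ => rfl)
    (fun _ _ h => hs.ne x h.symm) (by rw [hcard]; simp) ?_
  intro f _ _ h _
  have h1 := h 1 G.one_mem
  rw [Fintype.sum_unique] at h1
  rcases mul_eq_zero.1 h1 with h2 | h2
  · exact h2
  · exfalso
    rw [Equiv.Perm.one_apply] at h2
    rcases hs.pm x with h3 | h3 <;> rw [h3] at h2 <;> norm_num at h2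

theorem local_two' (hs : Setup c G e) {S : Set X} (hSc : ∀ x ∈ S, c x ∈ S) (hcard : Nat.card S = 4) :
    IndepOn c G e S := by
  classical
  obtain ⟨x, hx⟩ : ∃ x, x ∈ S := by
    by_contra hcon
    push Not at hcon
    have : S = ∅ := Set.eq_empty_of_forall_notMem hcon
    rw [this] at hcard
    simp at hcard
  obtain ⟨y, hy, hyn⟩ : ∃ y ∈ S, y ∉ ({x, c x} : Set X) := by
    by_contra hcon
    push Not at hcon
    have h1 : Nat.card S ≤ Nat.card ({x, c x} : Set X) := Nat.card_mono (Set.toFinite _) hcon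
    have h2 : Nat.card ({x, c x} : Set X) ≤ 2 := by
      rw [Nat.card_coe_set_eq]
      refine (Set.ncard_insert_le _ _).trans ?_
      rw [Set.ncard_singleton]
    omega
  rw [Set.mem_insert_iff, Set.mem_singleton_iff, not_or] at hyn
  refine indepOn_of_coords hs hSc (ι := Bool) (fun b => if b then y else x) ?_ ?_ ?_ (by rw [hcard]; simp) ?_
  · intro b
    cases b
    · simpa using hx
    · simpa using hy
  · intro b b' h
    cases b <;> cases b'
    · rfl
    · exact absurd (by simpa using h.symm) hyn.1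
    · exact absurd (by simpa using h) hyn.1
    · rfl
  · intro b b' h
    cases b <;> cases b'
    · exact hs.ne x (by simpa using h.symm)
    · apply hyn.2
      have h1 : x = c y := by simpa using h
      rw [h1, hs.invol]
    · exact hyn.2 (by simpa using h)
    · exact hs.ne y (by simpa using h.symm)
  · intro f hodd hconst h
    have h1 : ∀ g ∈ G, f y * e (g y) + f x * e (g x) = 0 := by
      intro g hg
      have := h g hg
      rw [Fintype.sum_bool] at this
      simpa using this
    suffices h2 : f x = 0 ∧ f y = 0 by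
      intro b
      cases b
      · simpa using h2.1
      · simpa using h2.2
    have h3 := h1 1 G.one_mem
    rw [Equiv.Perm.one_apply, Equiv.Perm.one_apply] at h3
    have hss := hs.sq
    by_cases hfx : f x = 0
    · refine ⟨hfx, ?_⟩
      rw [hfx, zero_mul, add_zero] at h3
      rcases mul_eq_zero.1 h3 with h4 | h4
      · exact h4
      · exfalso
        have := hss y
        rw [h4] at this
        norm_num at this
    · exfalso
      have h4 : ∀ g ∈ G, e (g x) = e x * e y * e (g y) := by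
        intro g hg
        have h5 := h1 g hg
        have h6 : f x * e (g x) = f x * (e x * e y * e (g y)) := by
          have h7 : f x = - f y * e y * e x := by
            linear_combination (-f x) * hss x + e x * h3
          have h8 : f x * (e x * e y * e (g y)) = - f y * e (g y) := by
            nth_rewrite 1 [h7]
            linear_combination (-f y * e (g y)) * hss y * (e x * e x) + (-f y * e (g y)) * hss x
          rw [h8]
          linear_combination h5
        exact mul_left_cancel₀ hfx h6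
      have h9 : e x * e y = 1 ∨ e x * e y = -1 := by
        rcases hs.pm x with h10 | h10 <;> rcases hs.pm y with h11 | h11 <;> rw [h10, h11] <;> norm_num
      rcases h9 with h9 | h9
      · have hrel : Rel G e x y := fun g hg => by rw [h4 g hg, h9, one_mul]
        have h10 := hconst x hx y hy hrel
        have h11 : e x = e y := by
          have := h4 1 G.one_mem
          rwa [Equiv.Perm.one_apply, Equiv.Perm.one_apply, h9, one_mul] at this
        rw [h10, h11] at h3
        have h12 : f y * e y = 0 := by linarith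
        rcases mul_eq_zero.1 h12 with h13 | h13
        · exact hfx (h10.trans h13)
        · have := hss y
          rw [h13] at this
          norm_num at this
      · have hrel : Rel G e x (c y) := fun g hg => by
          rw [hs.comm g hg, hs.odd, h4 g hg, h9]
          ring
        have h10 := hconst x hx (c y) (hSc y hy) hrel
        rw [hodd] at h10
        have h11 : e x = - e y := by
          have := h4 1 G.one_mem
          rw [Equiv.Perm.one_apply, Equiv.Perm.one_apply, h9] at this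
          linarith
        rw [h10, h11] at h3
        have h12 : f y * e y = 0 := by linarith
        rcases mul_eq_zero.1 h12 with h13 | h13
        · exact hfx (by rw [h10, h13, neg_zero])
        · have := hss y
          rw [h13] at this
          norm_num at this

theorem local_prime' (hs : Setup c G e) {S : Set X} (hSc : ∀ x ∈ S, c x ∈ S)
    (hB : ∀ g ∈ G, ∀ x ∈ S, g x ∈ S → ∀ y, g y ∈ S ↔ y ∈ S)
    (ht : ∀ x ∈ S, ∀ y ∈ S, ∃ g ∈ G, g x = y) (p : ℕ) (hp : p.Prime) (hp2 : p ≠ 2)
    (hcard : Nat.card S = 2 * p) : IndepOn c G e S := by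
  classical
  have : NeZero p := ⟨hp.ne_zero⟩
  obtain ⟨x, hx⟩ : ∃ x, x ∈ S := by
    by_contra hcon
    push Not at hcon
    have : S = ∅ := Set.eq_empty_of_forall_notMem hcon
    rw [this] at hcard
    have := hp.pos
    simp at hcard
    omega
  obtain ⟨u, hu, hinj, hconj, hshift⟩ := exists_rot hs hSc hB ht x hx p hp hp2 hcard
  refine indepOn_of_coords hs hSc (ι := ZMod p) u hu hinj hconj (by rw [hcard, ZMod.card]) ?_
  intro f hodd hconst h
  by_contra hcon
  push Not at hcon
  have h1 : ∀ g ∈ G, ∀ m : ZMod p, ∑ i, e (g (u (m + i))) * f (u i) = 0 := by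
    intro g hg m
    obtain ⟨θ, hθ, hθ'⟩ := hshift m
    rw [← h (g * θ) (G.mul_mem hg hθ)]
    refine Finset.sum_congr rfl fun i _ => ?_
    rw [mul_comm, ← hθ' i]
    rfl
  have h2 : ∀ g ∈ G, ∀ i j : ZMod p, e (g (u i)) = e (g (u j)) := by
    intro g hg
    exact zmodp_signs p hp hp2 (fun i => f (u i)) (fun i => e (g (u i))) (fun i => hs.pm _)
      (fun m => h1 g hg m) hcon
  obtain ⟨i₀, hi₀⟩ := hcon
  have h3 : ∀ i, f (u i) = f (u i₀) := fun i => hconst _ (hu i) _ (hu i₀) (fun g hg => h2 g hg i i₀)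
  have h4 := h 1 G.one_mem
  have h5 : ∑ i, f (u i) * e ((1 : Equiv.Perm X) (u i)) = f (u i₀) * ∑ i, e (u i) := by
    rw [Finset.mul_sum]
    refine Finset.sum_congr rfl fun i _ => ?_
    rw [h3 i, Equiv.Perm.one_apply]
  rw [h5] at h4
  rcases mul_eq_zero.1 h4 with h6 | h6
  · exact hi₀ h6
  · refine sum_signs_ne_zero ?_ _ (fun i => hs.pm _) h6
    rw [ZMod.card]
    exact hp.odd_of_ne_two hp2

/-- **The classes of one type.** -/
theorem indepOn_class (hs : Setup c G e) {S : Set X} (hSc : ∀ x ∈ S, c x ∈ S)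
    (hB : ∀ g ∈ G, ∀ x ∈ S, g x ∈ S → ∀ y, g y ∈ S ↔ y ∈ S) (b : ℕ) (hcard : Nat.card S = 2 * b)
    (h : b = 1 ∨ (b.Prime ∧ ∀ x ∈ S, ∀ y ∈ S, ∃ g ∈ G, g x = y) ∨ (Odd b ∧ TwoHom c G S)) : IndepOn c G e S := by
  classical
  rcases h with h | ⟨hp, ht⟩ | ⟨hb, h2⟩
  · subst h
    exact local_one' hs hSc hcard
  · by_cases hp2 : b = 2
    · subst hp2
      exact local_two' hs hSc hcard
    · exact local_prime' hs hSc hB ht b hp hp2 hcard
  · refine local_twoHom hs S hSc hB h2 ?_
    rw [card_reps hs S hSc b hcard]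
    exact hb

end

end Pool.Agent.H56.CP
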